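import Pool.Agent.helper7.IG.Stmt1

/-!
# IG: module R2, a theta relation
-/

set_option autoImplicit false

open Polynomial

noncomputable section

namespace Pool.Agent.helper7.IG

open Classical in
/-- The power series of the values `e * m ^ 2`, `S m`. -/
def r2_J (e : ℕ) (S : ℤ → Prop) : PowerSeries kk :=
  PowerSeries.mk fun n => if ∃ m : ℤ, (e : ℤ) * m ^ 2 = n ∧ S m then 1 else 0

lemma r2_th (s : ℕ) (c : ℤ) :
    th s c = HahnSeries.ofPowerSeries ℤ kk (r2_J 1 (fun m => m ≡ c [ZMOD 2 ^ s])) := by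
  unfold th ps r2_J
  congr 2
  funext n
  have h : (∃ m : ℤ, m ^ 2 = (n : ℤ) ∧ m ≡ c [ZMOD 2 ^ s]) ↔
      (∃ m : ℤ, ((1 : ℕ) : ℤ) * m ^ 2 = (n : ℤ) ∧ m ≡ c [ZMOD 2 ^ s]) := by
    refine exists_congr fun m => and_congr_left fun _ => ?_
    rw [Nat.cast_one, one_mul]
  by_cases hh : ∃ m : ℤ, m ^ 2 = (n : ℤ) ∧ m ≡ c [ZMOD 2 ^ s]
  · rw [if_pos hh, if_pos (h.mp hh)]
  · rw [if_neg hh, if_neg (fun g => hh (h.mpr g))]

lemma r2_sq (f : ℕ → kk) : (PowerSeries.mk f) ^ 2 =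
    PowerSeries.mk (fun n => if 2 ∣ n then f (n / 2) ^ 2 else 0) := by
  ext n
  rw [sq, PowerSeries.coeff_mul, PowerSeries.coeff_mk]
  simp only [PowerSeries.coeff_mk]
  rw [← Finset.sum_filter_add_sum_filter_not _ (fun x : ℕ × ℕ => x.1 = x.2)]
  have h2 : ∑ x ∈ (Finset.HasAntidiagonal.antidiagonal n).filter (fun x : ℕ × ℕ => ¬ x.1 = x.2),
      f x.1 * f x.2 = 0 := by
    refine Finset.sum_involution (fun x _ => x.swap) ?_ ?_ ?_ ?_
    · intro x _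
      simp only [Prod.fst_swap, Prod.snd_swap]
      rw [mul_comm (f x.2)]
      exact CharTwo.add_self_eq_zero _
    · intro x hx _ h
      rw [Finset.mem_filter] at hx
      exact hx.2 (congrArg Prod.snd h)
    · intro x hx
      simp only [Finset.mem_filter, Finset.HasAntidiagonal.mem_antidiagonal, Prod.fst_swap, Prod.snd_swap] at hx ⊢
      omega
    · intro x _
      simp
  rw [h2, add_zero]
  split_ifs with h
  · obtain ⟨k, rfl⟩ := h
    have : (Finset.HasAntidiagonal.antidiagonal (2 * k)).filter (fun x : ℕ × ℕ => x.1 = x.2) = {(k, k)} := by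
      ext ⟨a, b⟩
      simp only [Finset.mem_filter, Finset.HasAntidiagonal.mem_antidiagonal, Finset.mem_singleton, Prod.mk.injEq]
      omega
    rw [this, Finset.sum_singleton, Nat.mul_div_cancel_left _ (by norm_num), sq]
  · rw [Finset.filter_eq_empty_iff.mpr, Finset.sum_empty]
    intro x hx h3
    rw [Finset.HasAntidiagonal.mem_antidiagonal] at hx
    omega

lemma r2_J_sq (e : ℕ) (S : ℤ → Prop) : (r2_J e S) ^ 2 = r2_J (2 * e) S := by
  unfold r2_J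
  rw [r2_sq]
  congr 1
  funext n
  by_cases h : 2 ∣ n
  · obtain ⟨k, rfl⟩ := h
    rw [if_pos (dvd_mul_right _ _), Nat.mul_div_cancel_left _ (by norm_num)]
    have h1 : (∃ m : ℤ, (e : ℤ) * m ^ 2 = (k : ℤ) ∧ S m) ↔
        (∃ m : ℤ, ((2 * e : ℕ) : ℤ) * m ^ 2 = ((2 * k : ℕ) : ℤ) ∧ S m) := by
      refine exists_congr fun m => and_congr_left fun _ => ?_
      push_cast
      constructor
      · intro h; rw [mul_assoc, h]
      · intro h
        rw [mul_assoc] at h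
        omega
    by_cases hh : ∃ m : ℤ, (e : ℤ) * m ^ 2 = (k : ℤ) ∧ S m
    · rw [if_pos hh, if_pos (h1.mp hh), one_pow]
    · rw [if_neg hh, if_neg (fun h => hh (h1.mpr h)), zero_pow two_ne_zero]
  · rw [if_neg h, if_neg]
    rintro ⟨m, hm, -⟩
    apply h
    have : (2 : ℤ) ∣ (n : ℤ) := by
      rw [← hm]; push_cast; rw [mul_assoc]; exact dvd_mul_right _ _
    exact_mod_cast this

lemma r2_J_pow8 (e : ℕ) (S : ℤ → Prop) : (r2_J e S) ^ 8 = r2_J (8 * e) S := by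
  rw [show (8 : ℕ) = 2 * 2 * 2 by norm_num, pow_mul, pow_mul, r2_J_sq, r2_J_sq, r2_J_sq]
  congr 1
  ring

open Classical in
/-- The representations of `N`. -/
def r2_Q (e f : ℕ) (S T : ℤ → Prop) (N : ℕ) : Finset (ℤ × ℤ) :=
  (Finset.Icc (-(N : ℤ)) N ×ˢ Finset.Icc (-(N : ℤ)) N).filter
    (fun x => (e : ℤ) * x.1 ^ 2 + f * x.2 ^ 2 = N ∧ S x.1 ∧ T x.2)

lemma r2_bd {e : ℕ} (he : e ≠ 0) {m N : ℤ} (h : (e : ℤ) * m ^ 2 ≤ N) : -N ≤ m ∧ m ≤ N := by
  have he' : (1 : ℤ) ≤ e := by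
    have : 0 < e := Nat.pos_of_ne_zero he
    exact_mod_cast this
  have h1 : m ^ 2 ≤ N := by
    refine le_trans ?_ h
    nlinarith [sq_nonneg m]
  constructor
  · nlinarith [sq_nonneg (m + 1), sq_nonneg m]
  · nlinarith [sq_nonneg (m - 1), sq_nonneg m]

lemma r2_mem {e f : ℕ} (he : e ≠ 0) (hf : f ≠ 0) (S T : ℤ → Prop) (N : ℕ) (x : ℤ × ℤ) :
    x ∈ r2_Q e f S T N ↔ ((e : ℤ) * x.1 ^ 2 + f * x.2 ^ 2 = N ∧ S x.1 ∧ T x.2) := by
  unfold r2_Q
  simp only [Finset.mem_filter, Finset.mem_product, Finset.mem_Icc, and_iff_right_iff_imp]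
  rintro ⟨h, -, -⟩
  have h1 : 0 ≤ (e : ℤ) * x.1 ^ 2 := by positivity
  have h2 : 0 ≤ (f : ℤ) * x.2 ^ 2 := by positivity
  exact ⟨r2_bd he (by linarith), r2_bd hf (by linarith)⟩

/-- Each square once. -/
def r2_U (S : ℤ → Prop) : Prop := ∀ m m' : ℤ, S m → S m' → m ^ 2 = m' ^ 2 → m = m'

lemma r2_coeff {e f : ℕ} (he : e ≠ 0) (hf : f ≠ 0) {S T : ℤ → Prop} (hS : r2_U S) (hT : r2_U T)
    (N : ℕ) : PowerSeries.coeff N (r2_J e S * r2_J f T) = ((r2_Q e f S T N).card : kk) := by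
  classical
  rw [PowerSeries.coeff_mul]
  unfold r2_J
  simp only [PowerSeries.coeff_mk]
  have h1 : ∀ x ∈ Finset.HasAntidiagonal.antidiagonal N,
      ((if ∃ m : ℤ, (e : ℤ) * m ^ 2 = (x.1 : ℤ) ∧ S m then (1 : kk) else 0) *
        (if ∃ m : ℤ, (f : ℤ) * m ^ 2 = (x.2 : ℤ) ∧ T m then (1 : kk) else 0)) =
      if ((∃ m : ℤ, (e : ℤ) * m ^ 2 = (x.1 : ℤ) ∧ S m) ∧
        (∃ m : ℤ, (f : ℤ) * m ^ 2 = (x.2 : ℤ) ∧ T m)) then (1 : kk) else 0 := by
    intro x _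
    rw [ite_and]
    split_ifs <;> simp
  rw [Finset.sum_congr rfl h1, ← Finset.sum_filter, Finset.sum_const, nsmul_eq_mul, mul_one]
  congr 1
  symm
  have he' : (e : ℤ) ≠ 0 := by exact_mod_cast he
  have hf' : (f : ℤ) ≠ 0 := by exact_mod_cast hf
  refine Finset.card_nbij (fun x => (((e : ℤ) * x.1 ^ 2).toNat, ((f : ℤ) * x.2 ^ 2).toNat))
    ?_ ?_ ?_
  · rintro ⟨m, n⟩ hx
    have hx := (r2_mem he hf S T N _).mp hx
    simp only [Finset.coe_filter, Set.mem_ofPred_eq, Finset.HasAntidiagonal.mem_antidiagonal] at hx ⊢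
    have g1 : 0 ≤ (e : ℤ) * m ^ 2 := by positivity
    have g2 : 0 ≤ (f : ℤ) * n ^ 2 := by positivity
    refine ⟨by omega, ⟨m, by omega, hx.2.1⟩, ⟨n, by omega, hx.2.2⟩⟩
  · rintro ⟨m, n⟩ hx ⟨m', n'⟩ hx' h
    have hx := (r2_mem he hf S T N _).mp hx
    have hx' := (r2_mem he hf S T N _).mp hx'
    simp only [Prod.mk.injEq] at h hx hx' ⊢
    have g1 : 0 ≤ (e : ℤ) * m ^ 2 := by positivity
    have g2 : 0 ≤ (f : ℤ) * n ^ 2 := by positivity
    have g3 : 0 ≤ (e : ℤ) * m' ^ 2 := by positivity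
    have g4 : 0 ≤ (f : ℤ) * n' ^ 2 := by positivity
    have h3 : (e : ℤ) * m ^ 2 = e * m' ^ 2 := by omega
    have h4 : (f : ℤ) * n ^ 2 = f * n' ^ 2 := by omega
    exact ⟨hS _ _ hx.2.1 hx'.2.1 (mul_left_cancel₀ he' h3),
      hT _ _ hx.2.2 hx'.2.2 (mul_left_cancel₀ hf' h4)⟩
  · rintro ⟨i, j⟩ hx
    simp only [Finset.coe_filter, Set.mem_ofPred_eq, Finset.HasAntidiagonal.mem_antidiagonal] at hx
    obtain ⟨hN, ⟨m, hm, hSm⟩, ⟨n, hn, hTn⟩⟩ := hx
    refine ⟨(m, n), (r2_mem he hf S T N _).mpr ⟨?_, hSm, hTn⟩, ?_⟩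
    · simp only
      omega
    · simp only [Prod.mk.injEq]
      omega

lemma r2_U_mod {s : ℕ} (hs : 2 ≤ s) {c : ℤ} (hc : Odd c) : r2_U (fun m => m ≡ c [ZMOD 2 ^ s]) := by
  intro m m' hm hm' h
  rcases sq_eq_sq_iff_eq_or_eq_neg.mp h with h | h
  · exact h
  · exfalso
    obtain ⟨t, rfl⟩ := Nat.exists_eq_add_of_le hs
    have h4 : (4 : ℤ) ∣ 2 ^ (2 + t) := ⟨2 ^ t, by rw [pow_add]; norm_num⟩
    have e1 : m ≡ c [ZMOD 4] := hm.of_dvd h4
    have e2 : m' ≡ c [ZMOD 4] := hm'.of_dvd h4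
    obtain ⟨k, rfl⟩ := hc
    unfold Int.ModEq at e1 e2
    omega

lemma r2_count {s : ℕ} (hs : 2 ≤ s) {c : ℤ} (N : ℕ) :
    (r2_Q 1 1 (fun m => m ≡ c [ZMOD 2 ^ (s + 1)]) (fun m => m ≡ 3 * c [ZMOD 2 ^ (s + 1)]) N).card =
      (r2_Q 8 2 (fun m => m ≡ c [ZMOD 2 ^ s]) (fun m => m ≡ c [ZMOD 2 ^ (s + 1)]) N).card +
      (r2_Q 8 2 (fun m => m ≡ c + 2 ^ (s - 1) [ZMOD 2 ^ s])
        (fun m => m ≡ c + 2 ^ s [ZMOD 2 ^ (s + 1)]) N).card := by
  classical
  obtain ⟨t, rfl⟩ := Nat.exists_eq_add_of_le hs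
  set P : ℤ := 2 ^ t with hP
  have hP0 : 0 < P := by positivity
  have p1 : (2 : ℤ) ^ (2 + t + 1) = 8 * P := by rw [hP, pow_add, pow_add]; ring
  have p2 : (2 : ℤ) ^ (2 + t) = 4 * P := by rw [hP, pow_add]; norm_num
  have p3 : (2 : ℤ) ^ (2 + t - 1) = 2 * P := by
    rw [show 2 + t - 1 = 1 + t by omega, hP, pow_add]; norm_num
  rw [p1, p2, p3]
  have key : ∀ x : ℤ × ℤ, x ∈ r2_Q 1 1 (fun m => m ≡ c [ZMOD 8 * P])
      (fun m => m ≡ 3 * c [ZMOD 8 * P]) N ↔ x.1 ^ 2 + x.2 ^ 2 = N ∧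
        (8 * P ∣ c - x.1) ∧ (8 * P ∣ 3 * c - x.2) := by
    intro x
    rw [r2_mem one_ne_zero one_ne_zero]
    simp only [Int.modEq_iff_dvd]
    push_cast
    rw [one_mul, one_mul]
  have keyA : ∀ x : ℤ × ℤ, x ∈ r2_Q 8 2 (fun m => m ≡ c [ZMOD 4 * P])
      (fun m => m ≡ c [ZMOD 8 * P]) N ↔ 8 * x.1 ^ 2 + 2 * x.2 ^ 2 = N ∧
        (4 * P ∣ c - x.1) ∧ (8 * P ∣ c - x.2) := by
    intro x
    rw [r2_mem (by norm_num) (by norm_num)]
    simp only [Int.modEq_iff_dvd]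
    push_cast
    rfl
  have keyB : ∀ x : ℤ × ℤ, x ∈ r2_Q 8 2 (fun m => m ≡ c + 2 * P [ZMOD 4 * P])
      (fun m => m ≡ c + 4 * P [ZMOD 8 * P]) N ↔ 8 * x.1 ^ 2 + 2 * x.2 ^ 2 = N ∧
        (4 * P ∣ c + 2 * P - x.1) ∧ (8 * P ∣ c + 4 * P - x.2) := by
    intro x
    rw [r2_mem (by norm_num) (by norm_num)]
    simp only [Int.modEq_iff_dvd]
    push_cast
    rfl
  rw [← Finset.card_union_of_disjoint]
  · refine Finset.card_nbij' (fun x => ((x.1 + x.2) / 4, (x.2 - x.1) / 2))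
      (fun y => (2 * y.1 - y.2, 2 * y.1 + y.2)) ?_ ?_ ?_ ?_
    · rintro ⟨m, n⟩ hx
      rw [Finset.mem_coe, key] at hx
      simp only at hx
      obtain ⟨h, ⟨u, hu⟩, ⟨v, hv⟩⟩ := hx
      have hm : m = c - 8 * P * u := by linarith
      have hn : n = 3 * c - 8 * P * v := by linarith
      have h4 : (m + n) / 4 = c - 2 * P * u - 2 * P * v := by
        rw [hm, hn]
        rw [show c - 8 * P * u + (3 * c - 8 * P * v) = (c - 2 * P * u - 2 * P * v) * 4 by ring]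
        exact Int.mul_ediv_cancel _ (by norm_num)
      have h2 : (n - m) / 2 = c + 4 * P * u - 4 * P * v := by
        rw [hm, hn]
        rw [show 3 * c - 8 * P * v - (c - 8 * P * u) = (c + 4 * P * u - 4 * P * v) * 2 by ring]
        exact Int.mul_ediv_cancel _ (by norm_num)
      have hsum : 8 * (c - 2 * P * u - 2 * P * v) ^ 2 + 2 * (c + 4 * P * u - 4 * P * v) ^ 2 = N := by
        rw [← h, hm, hn]; ring
      rw [Finset.mem_coe, Finset.mem_union, keyA, keyB]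
      simp only
      rw [h4, h2]
      rcases Int.even_or_odd' (u + v) with ⟨w, hw | hw⟩
      · left
        refine ⟨hsum, ⟨w, ?_⟩, ⟨v - w, ?_⟩⟩
        · linear_combination 2 * P * hw
        · have : u - v = 2 * (w - v) := by linarith
          linear_combination (-4) * P * this
      · right
        refine ⟨hsum, ⟨w + 1, ?_⟩, ⟨v - w, ?_⟩⟩
        · linear_combination 2 * P * hw
        · have : u - v = 2 * (w - v) + 1 := by linarith
          linear_combination (-4) * P * this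
    · rintro ⟨a, b⟩ hx
      rw [Finset.mem_coe, Finset.mem_union, keyA, keyB] at hx
      rw [Finset.mem_coe, key]
      simp only at hx ⊢
      rcases hx with ⟨h, ⟨u, hu⟩, ⟨v, hv⟩⟩ | ⟨h, ⟨u, hu⟩, ⟨v, hv⟩⟩
      · refine ⟨by linarith, ⟨u - v, by linear_combination 2 * hu - hv⟩,
          ⟨u + v, by linear_combination 2 * hu + hv⟩⟩
      · refine ⟨by linarith, ⟨u - v, by linear_combination 2 * hu - hv⟩,
          ⟨u + v - 1, by linear_combination 2 * hu + hv⟩⟩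
    · rintro ⟨m, n⟩ hx
      rw [Finset.mem_coe, key] at hx
      simp only at hx
      obtain ⟨h, ⟨u, hu⟩, ⟨v, hv⟩⟩ := hx
      have hm : m = c - 8 * P * u := by linarith
      have hn : n = 3 * c - 8 * P * v := by linarith
      have h4 : (m + n) / 4 = c - 2 * P * u - 2 * P * v := by
        rw [hm, hn]
        rw [show c - 8 * P * u + (3 * c - 8 * P * v) = (c - 2 * P * u - 2 * P * v) * 4 by ring]
        exact Int.mul_ediv_cancel _ (by norm_num)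
      have h2 : (n - m) / 2 = c + 4 * P * u - 4 * P * v := by
        rw [hm, hn]
        rw [show 3 * c - 8 * P * v - (c - 8 * P * u) = (c + 4 * P * u - 4 * P * v) * 2 by ring]
        exact Int.mul_ediv_cancel _ (by norm_num)
      simp only [Prod.mk.injEq]
      rw [h4, h2]
      constructor
      · rw [hm]; ring
      · rw [hn]; ring
    · rintro ⟨a, b⟩ _
      simp only [Prod.mk.injEq]
      constructor <;> omega
  · rw [Finset.disjoint_left]
    rintro ⟨a, b⟩ h1 h2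
    rw [keyA] at h1
    rw [keyB] at h2
    simp only at h1 h2
    obtain ⟨-, ⟨u, hu⟩, -⟩ := h1
    obtain ⟨-, ⟨v, hv⟩, -⟩ := h2
    have h3 : P * (4 * (v - u) - 2) = 0 := by linear_combination hu - hv
    rcases mul_eq_zero.mp h3 with h3 | h3
    · exact hP0.ne' h3
    · omega

theorem R2 : R2_stmt := by
  intro s hs c hc
  have h2 : Odd (3 * c) := by
    obtain ⟨k, rfl⟩ := hc
    exact ⟨3 * k + 1, by ring⟩
  have h3 : Odd (c + 2 ^ (s - 1)) :=
    hc.add_even ((even_two).pow_of_ne_zero (by omega))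
  have h4 : Odd (c + 2 ^ s) := hc.add_even ((even_two).pow_of_ne_zero (by omega))
  rw [r2_th, r2_th, r2_th, r2_th, r2_th, ← map_pow, ← map_pow, ← map_pow, ← map_pow, ← map_mul,
    ← map_mul, ← map_mul, ← map_add]
  congr 1
  rw [r2_J_pow8, r2_J_sq, r2_J_pow8, r2_J_sq]
  ext N
  rw [map_add, r2_coeff one_ne_zero one_ne_zero (r2_U_mod (by omega) hc) (r2_U_mod (by omega) h2),
    r2_coeff (by norm_num) (by norm_num) (r2_U_mod hs hc) (r2_U_mod (by omega) hc),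
    r2_coeff (by norm_num) (by norm_num) (r2_U_mod hs h3) (r2_U_mod (by omega) h4),
    r2_count hs N]
  push_cast
  rfl

end Pool.Agent.helper7.IG
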