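import Pool.Agent.helper7.IG.Basic

/-!
# IG: module DM, an automorphism with multiplier `3`
-/

set_option autoImplicit false

open Polynomial

noncomputable section

namespace Pool.Agent.helper7.IG

/-- The four neighbours of `(3 e, 1)`. -/
def dm_V (e : ℕ) (ω : kkˣ) (i : Fin 4) : Vx := if i = 3 then (9 * e, 1) else (e, ω ^ (i : ℕ))

lemma dm_V_three (e : ℕ) (ω : kkˣ) : dm_V e ω 3 = (9 * e, 1) := by
  unfold dm_V
  rw [if_pos rfl]

lemma dm_V_lt (e : ℕ) (ω : kkˣ) {i : Fin 4} (h : i ≠ 3) : dm_V e ω i = (e, ω ^ (i : ℕ)) := by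
  unfold dm_V
  rw [if_neg h]

lemma dm_odd {e : ℕ} (he : Odd e) (ω : kkˣ) (i : Fin 4) : Odd (dm_V e ω i).1 := by
  unfold dm_V
  split_ifs
  · exact Odd.mul (by decide) he
  · exact he

lemma dm_root {ω : kkˣ} (hω : IsPrimitiveRoot ω 3) {ζ : kkˣ} (hζ : ζ ^ 3 = 1) :
    ∃ i : Fin 4, i ≠ 3 ∧ ζ = ω ^ (i : ℕ) := by
  have h1 : IsPrimitiveRoot (ω : kk) 3 := IsPrimitiveRoot.coe_units_iff.mpr hω
  have h2 : (ζ : kk) ^ 3 = 1 := by
    rw [← Units.val_pow_eq_pow_val, hζ, Units.val_one]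
  obtain ⟨i, hi, h⟩ := h1.eq_pow_of_pow_eq_one h2
  refine ⟨⟨i, by omega⟩, ?_, ?_⟩
  · intro h3
    have := congrArg Fin.val h3
    simp at this
    omega
  · ext
    rw [Units.val_pow_eq_pow_val]
    exact h.symm

lemma dm_nb (e : ℕ) {ω : kkˣ} (hω : IsPrimitiveRoot ω 3) (i : Fin 4) :
    Nb 3 (3 * e, 1) (dm_V e ω i) := by
  unfold dm_V
  split_ifs with h
  · left
    refine ⟨by ring, by rw [one_pow]⟩
  · right
    refine ⟨rfl, ?_⟩
    change (ω ^ (i : ℕ)) ^ 3 = 1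
    rw [← pow_mul, mul_comm, pow_mul, hω.pow_eq_one, one_pow]

lemma dm_nb' (e : ℕ) {ω : kkˣ} (hω : IsPrimitiveRoot ω 3) {u : Vx} (hu : Nb 3 (3 * e, 1) u) :
    ∃ i : Fin 4, u = dm_V e ω i := by
  rcases hu with ⟨h1, h2⟩ | ⟨h1, h2⟩
  · refine ⟨3, ?_⟩
    rw [dm_V_three]
    refine Prod.ext ?_ ?_
    · change u.1 = 9 * e
      simp only at h1
      omega
    · rw [h2, one_pow]
  · obtain ⟨i, hi, hi2⟩ := dm_root hω h2
    refine ⟨i, ?_⟩
    rw [dm_V_lt e ω hi]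
    refine Prod.ext ?_ hi2
    change u.1 = e
    simp only at h1
    omega

lemma dm_inj {e : ℕ} (he : e ≠ 0) {ω : kkˣ} (hω : IsPrimitiveRoot ω 3) :
    Function.Injective (dm_V e ω) := by
  intro i j h
  by_cases hi : i = 3
  · by_cases hj : j = 3
    · rw [hi, hj]
    · rw [hi, dm_V_three, dm_V_lt e ω hj] at h
      have := congrArg Prod.fst h
      simp only at this
      omega
  · by_cases hj : j = 3
    · rw [hj, dm_V_three, dm_V_lt e ω hi] at h
      have := congrArg Prod.fst h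
      simp only at this
      omega
    · rw [dm_V_lt e ω hi, dm_V_lt e ω hj] at h
      have h2 := congrArg Prod.snd h
      simp only at h2
      have h3 : (i : ℕ) < 3 := by
        have := i.isLt
        have h4 : (i : ℕ) ≠ 3 := fun h5 => hi (Fin.ext h5)
        omega
      have h4 : (j : ℕ) < 3 := by
        have := j.isLt
        have h4 : (j : ℕ) ≠ 3 := fun h5 => hj (Fin.ext h5)
        omega
      exact Fin.ext (hω.pow_inj h3 h4 h2)

/-- The function of the coefficients. -/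
lemma dm_sum (e s : ℕ) (ω : kkˣ) (a : Fin 4 → ℤ) (c : ℕ → ℤ) (h0 : c 0 = a 0) (h1 : c 1 = a 1)
    (h2 : c 2 = a 2) :
    ∑ i : Fin 4, sig (dm_V e ω i).1 (dm_V e ω i).2 (th s (a i)) =
      (∑ j ∈ Finset.range 3, sig e (1 * ω ^ j) (th s (c j))) +
        sig (9 * e) (1 ^ 9) (th s (a 3)) := by
  rw [Fin.sum_univ_four, Finset.sum_range_succ, Finset.sum_range_succ, Finset.sum_range_one,
    dm_V_three, dm_V_lt e ω (by decide), dm_V_lt e ω (by decide), dm_V_lt e ω (by decide),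
    h0, h1, h2]
  simp only [one_mul, one_pow]
  rfl

/-- The multipliers of an automorphism that fixes the base vertex. -/
lemma dm_mult (hR3 : R3_stmt) (hR3U : R3U_stmt) (hME : ME_stmt) (hTHM : THM_stmt) (Φ : Frame)
    {e s : ℕ} (he : Odd e) (hs : 2 ≤ s) {ω : kkˣ} (hω : IsPrimitiveRoot ω 3)
    (γ : Φ.A ≃ₐ[kk] Φ.A) (π : Equiv.Perm (Fin 4)) (d : Fin 4 → ℤ) (hd : ∀ i, Odd (d i))
    (hX : ∀ i, ∀ c : ℤ, Odd c → γ (Φ.X (dm_V e ω i) s c) = Φ.X (dm_V e ω (π i)) s (d i * c))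
    (i j : Fin 4) (hi : π i = 3) (hj : π j ≠ 3) (hi3 : i ≠ 3) (hj3 : j ≠ 3) :
    d j ≡ 3 * d i [ZMOD 2 ^ s] ∨ d j ≡ - (3 * d i) [ZMOD 2 ^ s] := by
  have he0 : e ≠ 0 := by rintro rfl; exact absurd he (by decide)
  -- an inverse of `3`
  obtain ⟨c', hc'⟩ : ∃ c' : ℤ, 3 * c' ≡ 1 [ZMOD 2 ^ s] := by
    have hcop : IsCoprime (3 : ℤ) (2 ^ s) := by
      apply IsCoprime.pow_right
      exact ⟨1, -1, by norm_num⟩
    obtain ⟨a, b, hab⟩ := hcop
    refine ⟨a, ?_⟩
    rw [Int.modEq_iff_dvd]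
    exact ⟨b, by linarith⟩
  have hc'odd : Odd c' := by
    have h2 : (2 : ℤ) ∣ 2 ^ s := dvd_pow_self 2 (by omega)
    have h3 := hc'.of_dvd h2
    unfold Int.ModEq at h3
    rw [Int.odd_iff]
    omega
  set a : Fin 4 → ℤ := fun i => if i = 3 then c' else 1 with ha
  have haodd : ∀ i, Odd (a i) := by
    intro i
    rw [ha]
    simp only
    split_ifs
    · exact hc'odd
    · exact odd_one
  have hmem : ∀ (c : ℤ) (i : Fin 4), Odd c →
      sig (dm_V e ω i).1 (dm_V e ω i).2 (th s c) ∈ MM := fun c i hc =>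
    Frame.X_mem hME hTHM (dm_odd he ω i) hs hc
  -- the relation
  have hrel : ∑ i : Fin 4, sig (dm_V e ω i).1 (dm_V e ω i).2 (th s (a i)) = 0 := by
    rw [dm_sum e s ω a (fun _ => 1) rfl rfl rfl]
    exact hR3 e s 1 ω 1 c' he0 hs odd_one hc' hω
  have hrel2 : ∑ i : Fin 4, Φ.X (dm_V e ω i) s (a i) = 0 := by
    have h := congrArg Φ.cl hrel
    rw [Φ.cl_sum _ _ (fun i _ => hmem _ i (haodd i)), Φ.cl_zero] at h
    exact h
  -- its image
  have hrel3 : ∑ i : Fin 4, Φ.X (dm_V e ω (π i)) s (d i * a i) = 0 := by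
    have h := congrArg γ hrel2
    rw [map_sum, map_zero] at h
    rw [← h]
    exact Finset.sum_congr rfl fun i _ => (hX i _ (haodd i)).symm
  set b : Fin 4 → ℤ := fun k => d (π.symm k) * a (π.symm k) with hb
  have hbodd : ∀ k, Odd (b k) := fun k => (hd _).mul (haodd _)
  have hrel4 : ∑ k : Fin 4, Φ.X (dm_V e ω k) s (b k) = 0 := by
    rw [← hrel3]
    refine (Fintype.sum_equiv π _ _ fun i => ?_).symm
    rw [hb]
    simp only [Equiv.symm_apply_apply]
  have hrel5 : ∑ k : Fin 4, sig (dm_V e ω k).1 (dm_V e ω k).2 (th s (b k)) = 0 := by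
    refine Φ.cl_inj _ (sum_mem fun k _ => hmem _ k (hbodd k)) ?_
    rw [Φ.cl_sum _ _ (fun k _ => hmem _ k (hbodd k))]
    exact hrel4
  set cc : ℕ → ℤ := fun n => if n = 0 then b 0 else if n = 1 then b 1 else b 2 with hcc
  rw [dm_sum e s ω b cc (by simp [hcc]) (by simp [hcc]) (by simp [hcc])] at hrel5
  have hccodd : ∀ n, Odd (cc n) := by
    intro n
    rw [hcc]
    simp only
    split_ifs
    · exact hbodd 0
    · exact hbodd 1
    · exact hbodd 2
  obtain ⟨h1, h2, h3⟩ := hR3U e s 1 ω cc (b 3) he0 hs hccodd (hbodd 3) hω hrel5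
  have e0 : cc 0 = b 0 := by simp [hcc]
  have e1 : cc 1 = b 1 := by simp [hcc]
  have e2 : cc 2 = b 2 := by simp [hcc]
  rw [e0, e1] at h1
  rw [e0, e2] at h2
  rw [e0] at h3
  have hall : ∀ k : Fin 4, k ≠ 3 → b k ≡ 3 * b 3 [ZMOD 2 ^ s] ∨ b k ≡ - (3 * b 3) [ZMOD 2 ^ s] := by
    intro k hk
    have hcase : k = 0 ∨ k = 1 ∨ k = 2 := by
      fin_cases k
      · exact Or.inl rfl
      · exact Or.inr (Or.inl rfl)
      · exact Or.inr (Or.inr rfl)
      · exact absurd rfl hk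
    have comb : ∀ x : ℤ, (x ≡ b 0 [ZMOD 2 ^ s] ∨ x ≡ - b 0 [ZMOD 2 ^ s]) →
        (x ≡ 3 * b 3 [ZMOD 2 ^ s] ∨ x ≡ - (3 * b 3) [ZMOD 2 ^ s]) := by
      intro x hx
      rcases hx with hx | hx <;> rcases h3 with h3 | h3
      · exact Or.inl (hx.trans h3)
      · exact Or.inr (hx.trans h3)
      · exact Or.inr (hx.trans h3.neg)
      · left
        have := h3.neg
        rw [neg_neg] at this
        exact hx.trans this
    rcases hcase with rfl | rfl | rfl
    · exact h3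
    · exact comb _ h1
    · exact comb _ h2
  have hb3 : b 3 = d i := by
    have : π.symm 3 = i := by rw [← hi, Equiv.symm_apply_apply]
    rw [hb]
    simp only [this]
    rw [ha]
    simp only
    rw [if_neg hi3, mul_one]
  have hbj : b (π j) = d j := by
    rw [hb]
    simp only [Equiv.symm_apply_apply]
    rw [ha]
    simp only
    rw [if_neg hj3, mul_one]
  have := hall (π j) hj
  rw [hb3, hbj] at this
  exact this

theorem DM_of (hR3 : R3_stmt) (hR3U : R3U_stmt) (hME : ME_stmt) (hTHM : THM_stmt)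
    (hDI : DI_stmt) (hNB : NB_stmt) (hNF : NF_stmt) (hUD : UD_stmt) : DM_stmt := by
  intro Φ N hN h3N
  obtain ⟨e, rfl⟩ := h3N
  have he : Odd e := (Nat.odd_mul.mp hN).2
  have he0 : e ≠ 0 := by rintro rfl; exact absurd he (by decide)
  obtain ⟨ω, hω⟩ := exists_primitive 3 (by decide)
  obtain ⟨γ, hγ1, hγ2⟩ := hNF Φ (3 * e) 3 hN Nat.prime_three (by norm_num)
  have hVodd := dm_odd he ω
  -- the permutation
  have hperm0 : ∀ i : Fin 4, ∃ j : Fin 4, γ (Φ.D (dm_V e ω i)) = Φ.D (dm_V e ω j) := by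
    intro i
    obtain ⟨u', hu', h⟩ := hNB Φ γ (3 * e, 1) (3 * e, 1) 3 Nat.prime_three (by norm_num) hN hN
      (dvd_mul_right _ _) (dvd_mul_right _ _) hγ1 _ (dm_nb e hω i)
    obtain ⟨j, rfl⟩ := dm_nb' e hω hu'
    exact ⟨j, h⟩
  choose π0 hπ0 using hperm0
  have hπinj : Function.Injective π0 := by
    intro i j hij
    have h1 : γ (Φ.D (dm_V e ω i)) = γ (Φ.D (dm_V e ω j)) := by rw [hπ0, hπ0, hij]
    exact dm_inj he0 hω (hDI Φ _ _ (hVodd i) (hVodd j) (γ.injective h1))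
  set π : Equiv.Perm (Fin 4) :=
    Equiv.ofBijective π0 (Finite.injective_iff_bijective.mp hπinj) with hπdef
  have hπ : ∀ i, γ (Φ.D (dm_V e ω i)) = Φ.D (dm_V e ω (π i)) := hπ0
  have hπ3 : π 3 ≠ 3 := by
    intro h
    have h1 := hπ 3
    rw [h, dm_V_three] at h1
    apply hγ2
    rw [show 3 * (3 * e) = 9 * e by ring]
    exact h1
  -- the indices
  set ia : Fin 4 := π.symm 3 with hia
  have hπa : π ia = 3 := by rw [hia, Equiv.apply_symm_apply]
  have hia3 : ia ≠ 3 := by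
    intro h
    rw [h] at hπa
    exact hπ3 hπa
  obtain ⟨ib, hib3, hib⟩ := dm_root hω (ζ := ω ^ (ia : ℕ) * ω) (by
    rw [mul_pow, ← pow_mul, mul_comm, mul_comm (ia : ℕ), pow_mul, hω.pow_eq_one, one_pow, one_mul])
  have hab : ib ≠ ia := by
    intro h
    rw [h] at hib
    have h2 : ω = 1 := by
      have := mul_eq_left.mp hib
      exact this
    rw [h2] at hω
    have := hω.eq_orderOf
    rw [orderOf_one] at this
    omega
  have hπb : π ib ≠ 3 := by
    intro h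
    apply hab
    apply π.injective
    rw [h, hπa]
  -- translations
  obtain ⟨w, hw⟩ := exists_unit_root e he0 ω
  obtain ⟨T, hT⟩ := Φ.exists_T w
  have hTX : ∀ (ζ : kkˣ) (s : ℕ) (c : ℤ), 2 ≤ s → Odd c →
      T (Φ.X (e, ζ) s c) = Φ.X (e, ζ * ω) s c := by
    intro ζ s c hs hc
    rw [Frame.T_X hME hTHM hT he ζ hs hc, hw]
  have hTD : ∀ ζ : kkˣ, T (Φ.D (e, ζ)) = Φ.D (e, ζ * ω) := by
    intro ζ
    rw [Frame.T_D hME hT he ζ, hw]
  -- a power of `T` brings `(e, ω ^ k)` back to `(e, 1)`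
  obtain ⟨w', hw'⟩ := exists_unit_root e he0 ((ω ^ ((π ib : Fin 4) : ℕ))⁻¹)
  obtain ⟨T', hT'⟩ := Φ.exists_T w'
  have hT'X : ∀ (s : ℕ) (c : ℤ), 2 ≤ s → Odd c →
      T' (Φ.X (e, ω ^ ((π ib : Fin 4) : ℕ)) s c) = Φ.X (e, 1) s c := by
    intro s c hs hc
    rw [Frame.T_X hME hTHM hT' he _ hs hc, hw', mul_inv_cancel]
  have hT'D : T' (Φ.D (e, ω ^ ((π ib : Fin 4) : ℕ))) = Φ.D (e, 1) := by
    rw [Frame.T_D hME hT' he _, hw', mul_inv_cancel]
  -- the extension of `sig 3 1`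
  obtain ⟨τ, hτ⟩ := Φ.ext_sig 3 1 (by decide)
  have hτX : ∀ (m : ℕ) (s : ℕ) (c : ℤ), Odd m → 2 ≤ s → Odd c →
      τ (Φ.X (m, 1) s c) = Φ.X (3 * m, 1) s c := by
    intro m s c hm hs hc
    have hm0 : m ≠ 0 := by rintro rfl; exact absurd hm (by decide)
    have hmem := Frame.X_mem hME hTHM (v := (m, 1)) hm hs hc
    have h := hτ _ hmem
    rw [sig_sig (by norm_num) hm0, one_pow, mul_one] at h
    exact h
  have hτD : ∀ m : ℕ, Odd m → τ (Φ.D (m, 1)) = Φ.D (3 * m, 1) := by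
    intro m hm
    have hm0 : m ≠ 0 := by rintro rfl; exact absurd hm (by decide)
    have h := hτ _ (Frame.D_mem hME (v := (m, 1)) hm)
    rw [sig_sig (by norm_num) hm0, one_pow, mul_one] at h
    exact h
  refine ⟨((((τ.trans γ.symm).trans T).trans γ).trans T').trans τ, ?_, ?_⟩
  · simp only [AlgEquiv.trans_apply]
    rw [hτD _ hN]
    have h1 : γ.symm (Φ.D (3 * (3 * e), 1)) = Φ.D (e, ω ^ (ia : ℕ)) := by
      rw [AlgEquiv.symm_apply_eq]
      have h2 := hπ ia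
      rw [hπa, dm_V_three, dm_V_lt e ω hia3] at h2
      rw [h2]
      congr 2
      ring
    rw [h1, hTD, hib]
    have h3 := hπ ib
    rw [dm_V_lt e ω hib3, dm_V_lt e ω hπb] at h3
    rw [h3, hT'D, hτD e he]
  · intro s c hs hc
    simp only [AlgEquiv.trans_apply]
    rw [hτX _ s c hN hs hc]
    -- multipliers
    have hdex : ∀ i : Fin 4, ∃ d : ℤ, Odd d ∧ ∀ c : ℤ, Odd c →
        γ (Φ.X (dm_V e ω i) s c) = Φ.X (dm_V e ω (π i)) s (d * c) := fun i =>
      hUD Φ γ _ _ (hVodd i) (hVodd (π i)) (hπ i) s hs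
    choose d hdodd hd using hdex
    have hmul := dm_mult hR3 hR3U hME hTHM Φ he hs hω γ π d hdodd hd ia ib hπa hπb hia3 hib3
    -- solve `d_a c0 = c`
    obtain ⟨c0, hc0⟩ : ∃ c0 : ℤ, d ia * c0 ≡ c [ZMOD 2 ^ s] := by
      have hcop : IsCoprime (d ia) (2 ^ s) := by
        apply IsCoprime.pow_right
        obtain ⟨k, hk⟩ := hdodd ia
        exact ⟨1, -k, by rw [hk]; ring⟩
      obtain ⟨a, b, hab'⟩ := hcop
      refine ⟨a * c, ?_⟩
      rw [Int.modEq_iff_dvd]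
      exact ⟨b * c, by linear_combination (-c) * hab'⟩
    have h2s : (2 : ℤ) ∣ 2 ^ s := dvd_pow_self 2 (by omega)
    have hc0odd : Odd c0 := by
      have h3 := hc0.of_dvd h2s
      have h4 : Odd (d ia * c0) := by
        rw [Int.odd_iff] at hc ⊢
        unfold Int.ModEq at h3
        omega
      exact (Int.odd_mul.mp h4).2
    have h1 : γ.symm (Φ.X (3 * (3 * e), 1) s c) = Φ.X (e, ω ^ (ia : ℕ)) s c0 := by
      rw [AlgEquiv.symm_apply_eq]
      have h2 := hd ia c0 hc0odd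
      rw [hπa, dm_V_three, dm_V_lt e ω hia3] at h2
      rw [h2, Φ.X_congr _ s hc0]
      congr 2
      ring
    rw [h1, hTX _ s c0 hs hc0odd, hib]
    have h3 := hd ib c0 hc0odd
    rw [dm_V_lt e ω hib3, dm_V_lt e ω hπb] at h3
    rw [h3, hT'X s _ hs ((hdodd ib).mul hc0odd), hτX e s _ he hs ((hdodd ib).mul hc0odd)]
    refine Φ.X_congr' _ s ?_
    rcases hmul with h | h
    · left
      have h5 := h.mul_right c0
      have h6 : 3 * d ia * c0 ≡ 3 * c [ZMOD 2 ^ s] := by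
        rw [mul_assoc]
        exact hc0.mul_left 3
      exact h5.trans h6
    · right
      have h5 := h.mul_right c0
      have h6 : 3 * d ia * c0 ≡ 3 * c [ZMOD 2 ^ s] := by
        rw [mul_assoc]
        exact hc0.mul_left 3
      refine h5.trans ?_
      rw [neg_mul]
      exact h6.neg

end Pool.Agent.helper7.IG
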