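import Pool.Agent.helper7.IG.Stmt1

/-!
# IG: module MB2, transformation laws of the modular equation
-/

set_option autoImplicit false

open Polynomial UpperHalfPlane
open scoped MatrixGroups

noncomputable section

namespace Pool.Agent.helper7.IG

open Pool.Agent.helper12.PE (ext ext_mobius ext_add_nat ext_inv im_mul im_div differentiableOn_ext)

/-- The discriminant as a modular form. -/
def mb2_F : ModularForm 𝒮ℒ ((12 : ℕ) : ℤ) := (CuspForm.discriminant : ModularForm 𝒮ℒ 12)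

lemma mb2_dC (z : ℂ) : dC z = ext mb2_F z := rfl

section gen

variable (F : ModularForm 𝒮ℒ ((12 : ℕ) : ℤ))

/-- The finite values. -/
def mb2_f (p : ℕ) (z : ℂ) (b : ℕ) : ℂ := ext F ((z + b) / p)

/-- The infinite value. -/
def mb2_g (p : ℕ) (z : ℂ) : ℂ := (p : ℂ) ^ 12 * ext F (p * z)

/-- The polynomial. -/
def mb2_P (p : ℕ) (z : ℂ) : ℂ[X] :=
  (∏ b ∈ Finset.range p, (X - C (mb2_f F p z b))) * (X - C (mb2_g F p z))

lemma mb2_T {p : ℕ} (hp : 0 < p) {z : ℂ} (hz : 0 < z.im) : mb2_P F p (z + 1) = mb2_P F p z := by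
  unfold mb2_P
  have hp0 : (p : ℂ) ≠ 0 := by exact_mod_cast hp.ne'
  have h0 : mb2_g F p (z + 1) = mb2_g F p z := by
    unfold mb2_g
    rw [mul_add, mul_one, ext_add_nat F _ (im_mul hp hz)]
  have h1 : ∀ b : ℕ, mb2_f F p (z + 1) b = mb2_f F p z (b + 1) := by
    intro b
    unfold mb2_f
    congr 2
    push_cast
    ring
  have h3 : mb2_f F p z p = mb2_f F p z 0 := by
    unfold mb2_f
    have : (z + (p : ℂ)) / p = (z + ((0 : ℕ) : ℂ)) / p + (1 : ℕ) := by
      field_simp; push_cast; ring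
    rw [this, ext_add_nat F _ (im_div hp hz 0)]
  rw [h0]
  congr 1
  simp_rw [h1]
  have h2 := Finset.prod_range_succ' (fun b : ℕ => (X - C (mb2_f F p z b))) p
  rw [Finset.prod_range_succ, h3] at h2
  exact (mul_right_cancel₀ (X_sub_C_ne_zero _) h2).symm

lemma mb2_scale_one (a c : ℂ) : (X - C a).scaleRoots c = X - C (c * a) := by
  ext n
  rw [coeff_scaleRoots, natDegree_X_sub_C]
  rcases n with _ | n
  · simp
    ring
  · rcases n with _ | n
    · simp [coeff_X]
    · simp [coeff_X]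

lemma mb2_scale_prod (s : Finset ℕ) (g : ℕ → ℂ) (c : ℂ) :
    (∏ b ∈ s, (X - C (g b))).scaleRoots c = ∏ b ∈ s, (X - C (c * g b)) := by
  classical
  induction s using Finset.induction_on with
  | empty =>
    simp
  | insert a s ha ih =>
    rw [Finset.prod_insert ha, Finset.prod_insert ha, mul_scaleRoots_of_noZeroDivisors, ih,
      mb2_scale_one]

lemma mb2_S {p : ℕ} (hp : p.Prime) {z : ℂ} (hz : 0 < z.im) :
    mb2_P F p (-1 / z) = (mb2_P F p z).scaleRoots (z ^ 12) := by
  have hp1 : 0 < p := hp.pos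
  have hp0 : (p : ℂ) ≠ 0 := by exact_mod_cast hp1.ne'
  have hz0 : z ≠ 0 := by rintro rfl; simp at hz
  have : Fact p.Prime := ⟨hp⟩
  unfold mb2_P
  rw [mul_scaleRoots_of_noZeroDivisors, mb2_scale_prod, mb2_scale_one]
  rw [Finset.range_eq_Ico, Finset.prod_eq_prod_Ico_succ_bot hp1,
    Finset.prod_eq_prod_Ico_succ_bot hp1]
  have e1 : mb2_g F p (-1 / z) = z ^ 12 * mb2_f F p z 0 := by
    unfold mb2_g mb2_f
    have : (p : ℂ) * (-1 / z) = -1 / ((z + ((0 : ℕ) : ℂ)) / p) := by
      push_cast; rw [add_zero]; field_simp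
    rw [this, ext_inv F _ (im_div hp1 hz 0), ← mul_assoc, ← mul_pow]
    congr 2
    field_simp; push_cast; ring
  have e2 : mb2_f F p (-1 / z) 0 = z ^ 12 * mb2_g F p z := by
    unfold mb2_g mb2_f
    have : (-1 / z + ((0 : ℕ) : ℂ)) / p = -1 / (p * z) := by
      field_simp; push_cast; ring
    rw [this, ext_inv F _ (im_mul hp1 hz), mul_pow]; ring
  have e3 : ∏ b ∈ Finset.Ico (0 + 1) p, (X - C (mb2_f F p (-1 / z) b)) =
      ∏ b ∈ Finset.Ico (0 + 1) p, (X - C (z ^ 12 * mb2_f F p z b)) := by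
    have hne : ∀ b ∈ Finset.Ico (0 + 1) p, ((b : ℕ) : ZMod p) ≠ 0 := by
      intro b hb h
      rw [Finset.mem_Ico] at hb
      rw [ZMod.natCast_eq_zero_iff] at h
      exact absurd (Nat.le_of_dvd (by omega) h) (by omega)
    have hmem : ∀ b ∈ Finset.Ico (0 + 1) p, (-(b : ZMod p)⁻¹).val ∈ Finset.Ico (0 + 1) p := by
      intro b hb
      rw [Finset.mem_Ico]
      refine ⟨?_, ZMod.val_lt _⟩
      rw [zero_add, Nat.one_le_iff_ne_zero, Ne, ZMod.val_eq_zero, neg_eq_zero]
      exact inv_ne_zero (hne b hb)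
    have hinv : ∀ b ∈ Finset.Ico (0 + 1) p,
        (-(((-(b : ZMod p)⁻¹).val : ℕ) : ZMod p)⁻¹).val = b := by
      intro b hb
      rw [ZMod.natCast_zmod_val, inv_neg, neg_neg, inv_inv, ZMod.val_natCast_of_lt]
      exact (Finset.mem_Ico.mp hb).2
    refine Finset.prod_nbij' (fun b => (-(b : ZMod p)⁻¹).val) (fun b => (-(b : ZMod p)⁻¹).val)
      hmem hmem hinv hinv ?_
    intro b hb
    set b' := (-(b : ZMod p)⁻¹).val with hb'
    have hdvd : (p : ℤ) ∣ (b : ℤ) * b' + 1 := by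
      rw [← ZMod.intCast_zmod_eq_zero_iff_dvd]
      push_cast
      rw [hb', ZMod.natCast_zmod_val, mul_neg, mul_inv_cancel₀ (hne b hb), neg_add_cancel]
    obtain ⟨e, he⟩ := hdvd
    have h := ext_mobius F b (-e) p (-b') (by linear_combination -he) ((z + b') / p)
      (im_div hp1 hz b')
    have he' : (b : ℂ) * b' + 1 = p * e := by exact_mod_cast he
    have h5 : ((p : ℤ) : ℂ) * ((z + b') / p) + ((-b' : ℤ) : ℂ) = z := by
      push_cast; field_simp; ring
    have h6 : ((b : ℤ) : ℂ) * ((z + b') / p) + ((-e : ℤ) : ℂ) = (b * z - 1) / p := by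
      push_cast
      field_simp
      linear_combination he'
    rw [h5, h6] at h
    unfold mb2_f
    rw [← h]
    congr 3
    field_simp
    ring
  rw [e1, e2, e3]
  ring

lemma mb2_natDegree (p : ℕ) (z : ℂ) : (mb2_P F p z).natDegree = p + 1 := by
  unfold mb2_P
  rw [(monic_prod_X_sub_C _ _).natDegree_mul (monic_X_sub_C _), natDegree_X_sub_C,
    natDegree_finsetProd_X_sub_C_eq_card]
  simp

/-- All coefficients are holomorphic on the upper half plane. -/
def mb2_Hol (P : ℂ → ℂ[X]) : Prop :=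
  ∀ j, DifferentiableOn ℂ (fun z => (P z).coeff j) {z | 0 < z.im}

lemma mb2_Hol_mul {P Q : ℂ → ℂ[X]} (hP : mb2_Hol P) (hQ : mb2_Hol Q) :
    mb2_Hol (fun z => P z * Q z) := by
  intro j
  simp only [coeff_mul]
  exact DifferentiableOn.fun_sum fun x _ => (hP x.1).mul (hQ x.2)

lemma mb2_Hol_prod (s : Finset ℕ) (P : ℕ → ℂ → ℂ[X]) (hP : ∀ b ∈ s, mb2_Hol (P b)) :
    mb2_Hol (fun z => ∏ b ∈ s, P b z) := by
  classical
  induction s using Finset.induction_on with
  | empty =>
    intro j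
    simp only [Finset.prod_empty]
    exact differentiableOn_const _
  | insert a s ha ih =>
    simp only [Finset.prod_insert ha]
    exact mb2_Hol_mul (hP a (Finset.mem_insert_self _ _))
      (ih fun b hb => hP b (Finset.mem_insert_of_mem hb))

lemma mb2_Hol_lin {g : ℂ → ℂ} (hg : DifferentiableOn ℂ g {z | 0 < z.im}) :
    mb2_Hol (fun z => X - C (g z)) := by
  intro j
  simp only [coeff_sub, coeff_X, coeff_C]
  split_ifs <;> first
    | exact (differentiableOn_const _).sub hg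
    | exact (differentiableOn_const _).sub (differentiableOn_const _)

lemma mb2_Hol_P {p : ℕ} (hp : 0 < p) : mb2_Hol (mb2_P F p) := by
  refine mb2_Hol_mul (mb2_Hol_prod _ _ fun b _ => mb2_Hol_lin ?_) (mb2_Hol_lin ?_)
  · exact (differentiableOn_ext F).comp (by fun_prop) (fun z hz => im_div hp hz b)
  · refine DifferentiableOn.const_mul ?_ _
    exact (differentiableOn_ext F).comp (by fun_prop) (fun z hz => im_mul hp hz)

end gen

lemma mb2_GG (p i : ℕ) (z : ℂ) : GG p i z = (mb2_P mb2_F p z).coeff (p + 1 - i) := rfl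

theorem MB2 : MB2_stmt := by
  intro p i hp hi
  refine ⟨mb2_Hol_P mb2_F hp.pos _, fun z hz => ?_, fun z hz => ?_⟩
  · rw [mb2_GG, mb2_GG, mb2_T mb2_F hp.pos hz]
  · rw [mb2_GG, mb2_GG, mb2_S mb2_F hp hz, coeff_scaleRoots, mb2_natDegree]
    rw [show p + 1 - (p + 1 - i) = i by omega, ← pow_mul]
    ring

end Pool.Agent.helper7.IG
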