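import Pool.Agent.helper7.IG.Basic

/-!
# IG: module NF, automorphisms that fix `(N, 1)` and move `(p N, 1)`
-/

set_option autoImplicit false

open Polynomial

noncomputable section

namespace Pool.Agent.helper7.IG

lemma nf_order_eq {F : LL} {k : ℤ} (h0 : F.coeff k ≠ 0) (h : ∀ n < k, F.coeff n = 0) :
    F.order = k := by
  refine le_antisymm (HahnSeries.order_le_of_coeff_ne_zero h0) ?_
  by_contra hlt
  have h1 := h F.order (not_le.mp hlt)
  rw [HahnSeries.coeff_order_eq_zero] at h1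
  rw [h1] at h0
  exact h0 rfl

lemma nf_order_D : DDk.order = 1 := by
  classical
  refine nf_order_eq ?_ ?_
  · rw [DDk_coeff, if_pos ⟨1, by norm_num, odd_one⟩]
    exact one_ne_zero
  · intro n hn
    rw [DDk_coeff, if_neg]
    rintro ⟨m, hm, hodd⟩
    have h1 : m ≠ 0 := by
      rintro rfl
      exact absurd hodd (by decide)
    have h2 : 0 < m ^ 2 := by positivity
    omega

lemma nf_D_ne : DDk ≠ 0 := by
  intro h
  have := nf_order_D
  rw [h, HahnSeries.order_zero] at this
  exact zero_ne_one this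

lemma nf_order_pow (i : ℕ) : (DDk ^ i).order = i := by
  rw [HahnSeries.order_pow, nf_order_D]
  simp

lemma nf_pow_coeff (i : ℕ) (n : ℤ) (hn : n < i) : (DDk ^ i).coeff n = 0 := by
  refine HahnSeries.coeff_eq_zero_of_lt_order ?_
  rw [nf_order_pow]
  exact hn

/-- Evaluation at `DDk`. -/
def nf_phi : kk[X] →ₐ[kk] LL := Polynomial.aeval DDk

lemma nf_alg_coeff (c : kk) (F : LL) (n : ℤ) :
    (algebraMap kk LL c * F).coeff n = c * F.coeff n := by
  have h0 : algebraMap kk LL c = HahnSeries.C c := rfl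
  rw [h0, HahnSeries.C_mul_eq_smul, HahnSeries.coeff_smul, smul_eq_mul]

lemma nf_phi_monomial (i : ℕ) (c : kk) :
    nf_phi (Polynomial.monomial i c) = algebraMap kk LL c * DDk ^ i := by
  unfold nf_phi
  rw [Polynomial.aeval_monomial]

lemma nf_phi_neg (P : kk[X]) (n : ℤ) (hn : n < 0) : (nf_phi P).coeff n = 0 := by
  induction P using Polynomial.induction_on' with
  | add p q hp hq => rw [map_add, HahnSeries.coeff_add, hp, hq, add_zero]
  | monomial i c =>
    rw [nf_phi_monomial, nf_alg_coeff, nf_pow_coeff i n (by omega), mul_zero]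

lemma nf_phi_zero (P : kk[X]) : (nf_phi P).coeff 0 = P.coeff 0 := by
  induction P using Polynomial.induction_on' with
  | add p q hp hq => rw [map_add, HahnSeries.coeff_add, hp, hq, Polynomial.coeff_add]
  | monomial i c =>
    rw [nf_phi_monomial, nf_alg_coeff, Polynomial.coeff_monomial]
    split_ifs with h
    · rw [h, pow_zero, HahnSeries.coeff_one, if_pos rfl, mul_one]
    · rw [nf_pow_coeff i 0 (by omega), mul_zero]

lemma nf_phi_order {P : kk[X]} (hP : P ≠ 0) :
    nf_phi P ≠ 0 ∧ (nf_phi P).order ≤ P.natDegree := by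
  obtain ⟨Q, hQ⟩ := (Polynomial.X_pow_dvd_iff (n := P.natTrailingDegree)).mpr
    (fun d hd => Polynomial.coeff_eq_zero_of_lt_natTrailingDegree hd)
  set k := P.natTrailingDegree with hk
  have hQ0 : Q.coeff 0 ≠ 0 := by
    have h1 : P.coeff k = Q.coeff 0 := by
      conv_lhs => rw [hQ]
      have := Polynomial.coeff_X_pow_mul Q k 0
      rwa [zero_add] at this
    rw [← h1, hk]
    exact Polynomial.trailingCoeff_nonzero_iff_nonzero.mpr hP
  have hoQ : (nf_phi Q).order = 0 :=
    nf_order_eq (by rw [nf_phi_zero]; exact hQ0) (fun n hn => nf_phi_neg Q n hn)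
  have hQ1 : nf_phi Q ≠ 0 := by
    intro h
    have := nf_phi_zero Q
    rw [h] at this
    exact hQ0 this.symm
  have h2 : nf_phi P = DDk ^ k * nf_phi Q := by
    rw [hQ, map_mul, map_pow]
    congr 2
    unfold nf_phi
    rw [Polynomial.aeval_X]
  have hne : nf_phi P ≠ 0 := by
    rw [h2]
    exact mul_ne_zero (pow_ne_zero _ nf_D_ne) hQ1
  refine ⟨hne, ?_⟩
  rw [h2, HahnSeries.order_mul (pow_ne_zero _ nf_D_ne) hQ1, nf_order_pow, hoQ, add_zero]
  exact_mod_cast Polynomial.natTrailingDegree_le_natDegree P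

lemma nf_phi_inj : Function.Injective nf_phi := by
  rw [injective_iff_map_eq_zero]
  intro P h
  by_contra hP
  exact (nf_phi_order hP).1 h

lemma nf_order_sig {p : ℕ} (hp : p ≠ 0) : (sig p 1 DDk).order = p := by
  classical
  refine nf_order_eq ?_ ?_
  · have h := sig_coeff_mul hp 1 DDk 1
    rw [mul_one, one_zpow, Units.val_one, one_mul] at h
    rw [h, DDk_coeff, if_pos ⟨1, by norm_num, odd_one⟩]
    exact one_ne_zero
  · intro n hn
    rw [sig_coeff hp]
    split_ifs with h
    · obtain ⟨m, rfl⟩ := h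
      have hp' : (0 : ℤ) < p := by exact_mod_cast Nat.pos_of_ne_zero hp
      rw [Int.mul_ediv_cancel_left _ hp'.ne']
      have hm : m < 1 := by
        by_contra hm
        have : (p : ℤ) * 1 ≤ p * m := mul_le_mul_of_nonneg_left (not_lt.mp hm) hp'.le
        omega
      rw [HahnSeries.coeff_eq_zero_of_lt_order (by rw [nf_order_D]; exact hm), mul_zero]
    · rfl

lemma nf_pow_sum (P : LL[X]) (F : LL) (s : ℕ) :
    (P.eval F) ^ (2 ^ s) =
      ∑ i ∈ Finset.range (P.natDegree + 1), (P.coeff i) ^ (2 ^ s) * (F ^ (2 ^ s)) ^ i := by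
  rw [Polynomial.eval_eq_sum_range, sum_pow_char_pow 2 s]
  refine Finset.sum_congr rfl fun i _ => ?_
  rw [mul_pow, ← pow_mul, ← pow_mul, mul_comm i]

/-- The modular equation at `Z = DDk`, `Y = sig p 1 DDk`. -/
lemma nf_root {p : ℕ} (hp : p ≠ 0) (Ψ : Polynomial (Polynomial kk)) (ω : kkˣ)
    (h : Ψ.map (Polynomial.aeval (R := kk) (sig p 1 DDk)).toRingHom =
      (X - C (sig (p * p) 1 DDk)) * ∏ j ∈ Finset.range p, (X - C (sig 1 (ω ^ j) DDk))) :
    (Ψ.map (nf_phi : kk[X] →+* LL)).eval (sig p 1 DDk) = 0 := by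
  apply sig_injective p 1
  have h1 : sig p 1 (sig p 1 DDk) = sig (p * p) 1 DDk := by
    rw [sig_sig hp hp, one_pow, one_mul]
  have h2 : (Ψ.map (Polynomial.aeval (R := kk) (sig p 1 DDk)).toRingHom).eval
      (sig (p * p) 1 DDk) = 0 := by
    rw [h, eval_mul, eval_sub, eval_X, eval_C, sub_self, zero_mul]
  rw [map_zero]
  have h3 : sig p 1 ((Ψ.map (nf_phi : kk[X] →+* LL)).eval (sig p 1 DDk)) =
      ((Ψ.map (nf_phi : kk[X] →+* LL)).map (sig p 1 : LL →+* LL)).eval (sig p 1 (sig p 1 DDk)) := by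
    rw [Polynomial.eval_map, Polynomial.eval_map, Polynomial.eval₂_map]
    exact Polynomial.hom_eval₂ Ψ (nf_phi : kk[X] →+* LL) (sig p 1 : LL →+* LL) (sig p 1 DDk)
  rw [h3, Polynomial.map_map, h1]
  have h4 : ((sig p 1 : LL →+* LL).comp (nf_phi : kk[X] →+* LL)) =
      (Polynomial.aeval (R := kk) (sig p 1 DDk)).toRingHom := by
    ext x
    · simp [nf_phi]
    · simp [nf_phi]
  rw [h4, h2]

theorem nf_zero (hpsi : PSI_stmt) {p : ℕ} (hp : p.Prime) (hp2 : p ≠ 2) (s : ℕ) :
    (sig p 1 DDk) ^ (2 ^ s) ∉ IntermediateField.adjoin kk {DDk} := by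
  intro hy
  obtain ⟨Ψ, hmon, hdeg, hc, hΨ⟩ := hpsi p hp hp2
  have hodd : Odd p := hp.odd_of_ne_two hp2
  obtain ⟨ω, hω⟩ := exists_primitive p hodd
  have hroot := nf_root hp.ne_zero Ψ ω (hΨ ω hω)
  set y := (sig p 1 DDk) ^ (2 ^ s) with hydef
  -- the equation for `y`
  have hmap_deg : (Ψ.map (nf_phi : kk[X] →+* LL)).natDegree = p + 1 := by
    rw [hmon.natDegree_map, hdeg]
  have heq : ∑ i ∈ Finset.range (p + 2), nf_phi ((Ψ.coeff i) ^ (2 ^ s)) * y ^ i = 0 := by
    have h1 := nf_pow_sum (Ψ.map (nf_phi : kk[X] →+* LL)) (sig p 1 DDk) s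
    rw [hroot, zero_pow (by positivity), hmap_deg] at h1
    rw [h1]
    refine Finset.sum_congr rfl fun i _ => ?_
    rw [Polynomial.coeff_map, map_pow]
    rfl
  rw [IntermediateField.mem_adjoin_simple_iff] at hy
  obtain ⟨r, q, hrq⟩ := hy
  have hy0 : y ≠ 0 := by
    rw [hydef]
    refine pow_ne_zero _ fun h0 => ?_
    rw [← map_zero (sig p 1)] at h0
    exact nf_D_ne (sig_injective _ _ h0)
  have hq0 : nf_phi q ≠ 0 := by
    intro h0
    have : aeval DDk q = 0 := h0
    rw [this, div_zero] at hrq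
    exact hy0 hrq
  have hyq : y * nf_phi q = nf_phi r := by
    rw [hrq]
    exact div_mul_cancel₀ _ hq0
  -- integrality
  have hinj : Function.Injective (algebraMap kk[X] (FractionRing kk[X])) :=
    IsFractionRing.injective _ _
  set lift : FractionRing kk[X] →+* LL :=
    IsFractionRing.lift (g := (nf_phi : kk[X] →+* LL)) nf_phi_inj with hlift
  have hlift_alg : ∀ P : kk[X], lift (algebraMap kk[X] (FractionRing kk[X]) P) = nf_phi P := by
    intro P
    rw [hlift]
    exact IsFractionRing.lift_algebraMap nf_phi_inj P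
  have hlift_inj : Function.Injective lift := lift.injective
  set x : FractionRing kk[X] := algebraMap kk[X] (FractionRing kk[X]) r /
    algebraMap kk[X] (FractionRing kk[X]) q with hx
  have hlx : lift x = y := by
    rw [hx, map_div₀, hlift_alg, hlift_alg, ← hyq]
    exact mul_div_cancel_right₀ _ hq0
  have hxeq : ∑ i ∈ Finset.range (p + 2),
      algebraMap kk[X] (FractionRing kk[X]) ((Ψ.coeff i) ^ (2 ^ s)) * x ^ i = 0 := by
    apply hlift_inj
    rw [map_zero, map_sum, ← heq]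
    refine Finset.sum_congr rfl fun i _ => ?_
    rw [map_mul, map_pow lift x, hlx, hlift_alg]
  have htop : Ψ.coeff (p + 1) = 1 := by
    rw [← hdeg]
    exact hmon
  have hxint : IsIntegral kk[X] x := by
    refine ⟨∑ i ∈ Finset.range (p + 2), C ((Ψ.coeff i) ^ (2 ^ s)) * X ^ i, ?_, ?_⟩
    · rw [Finset.sum_range_succ, htop, one_pow, C_1, one_mul, add_comm]
      refine Polynomial.monic_X_pow_add ?_
      rw [Polynomial.degree_lt_iff_coeff_zero]
      intro m hm
      rw [Polynomial.finsetSum_coeff]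
      refine Finset.sum_eq_zero fun i hi => ?_
      rw [Polynomial.coeff_C_mul, Polynomial.coeff_X_pow, if_neg, mul_zero]
      rw [Finset.mem_range] at hi
      omega
    · rw [Polynomial.eval₂_finsetSum]
      rw [← hxeq]
      refine Finset.sum_congr rfl fun i _ => ?_
      rw [Polynomial.eval₂_mul, Polynomial.eval₂_C, Polynomial.eval₂_X_pow]
  obtain ⟨P, hP⟩ := (IsIntegrallyClosed.isIntegral_iff (R := kk[X])).mp hxint
  have hyP : y = nf_phi P := by rw [← hlx, ← hP, hlift_alg]
  have hP0 : P ≠ 0 := by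
    rintro rfl
    rw [map_zero] at hyP
    exact hy0 hyP
  -- the equation in `kk[X]`
  have hPeq : ∑ i ∈ Finset.range (p + 2), (Ψ.coeff i) ^ (2 ^ s) * P ^ i = 0 := by
    apply nf_phi_inj
    rw [map_zero, map_sum, ← heq]
    refine Finset.sum_congr rfl fun i _ => ?_
    rw [map_mul, map_pow nf_phi P, ← hyP]
  have hPdeg : P.natDegree ≤ 2 ^ s := by
    by_contra hlt
    rw [not_le] at hlt
    rw [Finset.sum_range_succ, htop, one_pow, one_mul] at hPeq
    have h1 : P ^ (p + 1) = - ∑ i ∈ Finset.range (p + 1), (Ψ.coeff i) ^ (2 ^ s) * P ^ i :=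
      (neg_eq_of_add_eq_zero_right hPeq).symm
    have h2 : (P ^ (p + 1)).natDegree = (p + 1) * P.natDegree := natDegree_pow _ _
    have h3 : (- ∑ i ∈ Finset.range (p + 1), (Ψ.coeff i) ^ (2 ^ s) * P ^ i).natDegree ≤
        (p + 1) * P.natDegree - 1 := by
      rw [natDegree_neg]
      refine natDegree_sum_le_of_forall_le _ _ fun i hi => ?_
      rw [Finset.mem_range] at hi
      refine natDegree_mul_le.trans ?_
      rw [natDegree_pow, natDegree_pow]
      have h4 : 2 ^ s * (Ψ.coeff i).natDegree ≤ 2 ^ s * (p + 1 - i) :=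
        Nat.mul_le_mul_left _ (hc i)
      have h5 : 2 ^ s * (p + 1 - i) + (p + 1 - i) ≤ P.natDegree * (p + 1 - i) := by
        calc 2 ^ s * (p + 1 - i) + (p + 1 - i) = (2 ^ s + 1) * (p + 1 - i) := by ring
          _ ≤ _ := Nat.mul_le_mul_right _ hlt
      have h6 : P.natDegree * (p + 1 - i) + i * P.natDegree = (p + 1) * P.natDegree := by
        rw [mul_comm i, ← mul_add, Nat.sub_add_cancel (by omega), mul_comm]
      omega
    rw [← h1, h2] at h3
    have h7 : 0 < (p + 1) * P.natDegree := Nat.mul_pos (Nat.succ_pos p) (lt_of_le_of_lt (Nat.zero_le _) hlt)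
    omega
  -- orders
  have ho := (nf_phi_order hP0).2
  rw [← hyP, hydef, HahnSeries.order_pow, nf_order_sig hp.ne_zero] at ho
  have h8 : 2 ^ s * p ≤ 2 ^ s := by
    have h9 : ((2 ^ s * p : ℕ) : ℤ) ≤ (P.natDegree : ℤ) := by
      simpa using ho
    have h10 : 2 ^ s * p ≤ P.natDegree := by exact_mod_cast h9
    exact h10.trans hPdeg
  have h11 : 0 < 2 ^ s := by positivity
  have h12 : 2 ^ s * 2 ≤ 2 ^ s * p := Nat.mul_le_mul_left _ hp.two_le
  omega

theorem NF_of (hpsi : PSI_stmt) (hME : ME_stmt) : NF_stmt := by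
  intro Φ N p hN hp hp2
  by_contra hcon
  push Not at hcon
  have hodd : Odd p := hp.odd_of_ne_two hp2
  have hN0 : N ≠ 0 := by rintro rfl; exact absurd hN (by decide)
  have hmem : sig (p * N) 1 DDk ∈ MM := hME _ _ _ (hodd.mul hN) DDk_mem
  obtain ⟨s, hs⟩ := Φ.conj N (sig (p * N) 1 DDk) hN hmem (fun g hg => hcon g hg)
  have h1 : sig (p * N) 1 DDk = sig N 1 (sig p 1 DDk) := by
    rw [sig_sig hN0 hp.ne_zero, one_pow, one_mul, mul_comm]
  rw [h1, ← map_pow] at hs
  have h2 : IntermediateField.adjoin kk {sig N 1 DDk} =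
      (IntermediateField.adjoin kk {DDk}).map (sig N 1) := by
    rw [IntermediateField.adjoin_map, Set.image_singleton]
  rw [h2, IntermediateField.mem_map] at hs
  obtain ⟨z, hz, hz2⟩ := hs
  have h3 := sig_injective N 1 hz2
  rw [h3] at hz
  exact nf_zero hpsi hp hp2 s hz

end Pool.Agent.helper7.IG
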