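import Pool.Agent.helper7.IG.Stmt1

/-!
# IG: module RES, resultants of bounded degree
-/

set_option autoImplicit false

open Polynomial

noncomputable section

namespace Pool.Agent.helper7.IG

lemma res_det {ι K : Type} [Fintype ι] [DecidableEq ι] [CommRing K] (M : Matrix ι ι K[X]) (H : ℕ)
    (h : ∀ i j, (M i j).natDegree ≤ H) : M.det.natDegree ≤ Fintype.card ι * H := by
  rw [Matrix.det_apply]
  refine natDegree_sum_le_of_forall_le _ _ fun σ _ => ?_
  refine (natDegree_smul_le _ _).trans ?_
  refine (natDegree_prod_le _ _).trans ?_
  refine (Finset.sum_le_card_nsmul _ _ H fun i _ => h _ _).trans ?_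
  simp

lemma res_syl {K : Type} [CommRing K] (f g : K[X][X]) (m n H : ℕ)
    (hf : ∀ k, (f.coeff k).natDegree ≤ H) (hg : ∀ k, (g.coeff k).natDegree ≤ H) :
    (resultant f g m n).natDegree ≤ (m + n) * H := by
  unfold resultant
  have h := res_det (sylvester f g m n) H (by
    intro i j
    induction j using Fin.addCases with
    | left j =>
      simp only [sylvester, Matrix.of_apply, Fin.addCases_left]
      split_ifs
      · exact hg _
      · simp
    | right j =>
      simp only [sylvester, Matrix.of_apply, Fin.addCases_right]
      split_ifs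
      · exact hf _
      · simp)
  simpa using h

theorem RES : RES_stmt := by
  intro n H P hn hH hder hirr
  have hinj : Function.Injective
      (algebraMap (Polynomial kk) (FractionRing (Polynomial kk))) :=
    IsFractionRing.injective _ _
  set φ := algebraMap (Polynomial kk) (FractionRing (Polynomial kk)) with hφ
  have hdP : (P.map φ).natDegree = P.natDegree := natDegree_map_eq_of_injective hinj _
  have hdQ : (P.derivative.map φ).natDegree = P.derivative.natDegree :=
    natDegree_map_eq_of_injective hinj _
  have hpos : P.natDegree ≠ 0 := by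
    intro h0
    rw [natDegree_eq_zero] at h0
    obtain ⟨c, rfl⟩ := h0
    simp at hder
  have hlt : P.derivative.natDegree < P.natDegree := natDegree_derivative_lt hpos
  have hHd : ∀ k, (P.derivative.coeff k).natDegree ≤ H := by
    intro k
    rw [coeff_derivative]
    refine (natDegree_mul_le).trans ?_
    have h1 : ((k : Polynomial kk) + 1).natDegree = 0 := by
      rw [show ((k : Polynomial kk) + 1) = C ((k : kk) + 1) by simp, natDegree_C]
    rw [h1, add_zero]
    exact hH _
  have hcop : IsCoprime (P.map φ) (P.derivative.map φ) := by
    rw [hirr.coprime_iff_not_dvd]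
    intro hd
    have hne : P.derivative.map φ ≠ 0 := by
      rw [Ne, Polynomial.map_eq_zero_iff hinj]
      exact hder
    have := natDegree_le_of_dvd hd hne
    omega
  obtain ⟨A, B, -, -, h⟩ := exists_mul_add_mul_eq_C_resultant (m := P.natDegree)
    (n := P.derivative.natDegree) P P.derivative le_rfl le_rfl (Or.inl hpos)
  refine ⟨A, B, resultant P P.derivative, ?_, ?_, ?_⟩
  · intro h0
    have h1 := resultant_ne_zero _ _ hcop
    rw [hdP, hdQ, resultant_map_map, h0, map_zero] at h1
    exact h1 rfl
  · refine (res_syl _ _ _ _ H hH hHd).trans ?_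
    refine Nat.mul_le_mul_right _ ?_
    omega
  · rw [mul_comm A, mul_comm B]
    exact h

end Pool.Agent.helper7.IG
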