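import Pool.Agent.helper7.IG.Basic

/-!
# IG: module UGM, the components of `η ^ (-1)` are modular functions
-/

set_option autoImplicit false

open Polynomial

noncomputable section

namespace Pool.Agent.helper7.IG

lemma ugm_Ex_mem (hF1 : F1_stmt) (hME : ME_stmt) : Ex ∈ MM := by
  refine mem_MM_of_pow (n := 3) (by norm_num) ?_
  rw [hF1.2.2.2]
  exact hME 3 1 DDk (by decide) DDk_mem

lemma ugm_Ex_ne (hF1 : F1_stmt) : Ex ≠ 0 := by
  intro h
  have h2 := hF1.2.2.1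
  rw [h, mul_zero] at h2
  exact zero_ne_one h2

lemma ugm_reps_odd {s c : ℕ} (hc : c ∈ reps s) : Odd (c : ℤ) := by
  unfold reps at hc
  rw [Finset.mem_filter] at hc
  rw [Int.odd_iff]
  omega

theorem UGM_of (hF1 : F1_stmt) (hME : ME_stmt) (hTHM : THM_stmt) (hCO1 : CO1_stmt) :
    UGM_stmt := by
  classical
  intro s γ hs
  have h := hCO1 s s γ hs (by omega)
  have hE : Ex ^ (4 ^ s) ∈ MM := pow_mem (ugm_Ex_mem hF1 hME) _
  have hE0 : Ex ^ (4 ^ s) ≠ 0 := pow_ne_zero _ (ugm_Ex_ne hF1)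
  have h1 : Ug (s + 1) γ * Ex ^ (4 ^ s) ∈ MM := by
    rw [h]
    refine sum_mem fun c hc => prod_mem fun i _ => pow_mem ?_ _
    rw [Finset.mem_filter, Fintype.mem_piFinset] at hc
    exact hME 3 1 _ (by decide) (hTHM s _ hs (ugm_reps_odd (hc.1 i)))
  have h2 : Ug (s + 1) γ = Ug (s + 1) γ * Ex ^ (4 ^ s) * (Ex ^ (4 ^ s))⁻¹ := by
    rw [mul_assoc, mul_inv_cancel₀ hE0, mul_one]
  rw [h2]
  exact mul_mem h1 (inv_mem hE)

theorem WMM_of (hUG : UGM_stmt) (hWT : WT_stmt) (hME : ME_stmt) : WMM_stmt := by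
  intro t a ht
  obtain ⟨e, t', ht', rfl⟩ := Nat.exists_eq_two_pow_mul_odd (n := t) (by omega)
  obtain ⟨ζ, hζ⟩ := exists_primitive (3 * t') (by
    rw [Nat.odd_mul]; exact ⟨by decide, ht'⟩)
  have h := hWT e t' a 1 ζ ht' one_ne_zero hζ
  rw [sig_one] at h
  rw [h]
  refine sum_mem fun i _ => mul_mem (C_mem _) ?_
  exact hME 1 _ _ odd_one (hUG (e + 2) _ (by omega))

end Pool.Agent.helper7.IG
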